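import Pool.Agent.H97.NR.Stmts

namespace Pool.NR

theorem are : AREStmt := by
  intro p hp
  have hne : ∃ a : ZMod p, ∀ x : ZMod p, x ^ 2 + x + a ≠ 0 := by
    by_contra hcon
    push Not at hcon
    have hs : Function.Surjective (fun x : ZMod p => -(x ^ 2 + x)) := by
      intro a
      obtain ⟨x, hx⟩ := hcon a
      exact ⟨x, by simp only; linear_combination -hx⟩
    have hi := Finite.injective_iff_surjective.mpr hs
    have h01 : (0 : ZMod p) = -1 := hi (by simp)
    have : (1 : ZMod p) = 0 := by linear_combination h01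
    exact one_ne_zero this
  classical
  obtain ⟨a0, ha0⟩ := hne
  obtain ⟨a, ha, hmin⟩ := (Finset.univ.filter
    (fun a : ZMod p => ∀ x : ZMod p, x ^ 2 + x + a ≠ 0)).exists_min_image (fun a => a.val)
    ⟨a0, by simp only [Finset.mem_filter, Finset.mem_univ, true_and]; exact ha0⟩
  simp only [Finset.mem_filter, Finset.mem_univ, true_and] at ha hmin
  refine ⟨a, ⟨ha, hmin⟩, ?_⟩
  rintro b ⟨hb, hbmin⟩
  exact ZMod.val_injective p (le_antisymm (hbmin a ha) (hmin b hb))

end Pool.NR
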