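import Pool.Agent.H97.NR.Stmts

namespace Pool.NR

theorem ART.two : ∀ a s d : ZMod 2, (∀ x : ZMod 2, x ^ 2 + x + a ≠ 0) →
    (∀ x : ZMod 2, x ^ 2 + s * x + d ≠ 0) →
    ∃ t k : ZMod 2, t ≠ 0 ∧ s * t + 2 * k = 1 ∧ d * t ^ 2 + s * t * k + k ^ 2 = a := by
  decide

theorem art : ARTStmt := by
  intro p hp a s d ha hd
  obtain ⟨ha, -⟩ := ha
  by_cases h2 : p = 2
  · subst h2
    exact ART.two a s d ha hd
  · have h2' : (2 : ZMod p) ≠ 0 := by
      intro h
      have : ((2 : ℕ) : ZMod p) = 0 := by exact_mod_cast h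
      rw [ZMod.natCast_eq_zero_iff] at this
      exact h2 ((Nat.prime_dvd_prime_iff_eq hp.out Nat.prime_two).mp this)
    have hch : ringChar (ZMod p) ≠ 2 := by
      rw [ZMod.ringChar_zmod_n]; exact h2
    have key : ∀ s d : ZMod p, (∀ x : ZMod p, x ^ 2 + s * x + d ≠ 0) →
        ¬ IsSquare (s ^ 2 - 4 * d) := by
      rintro s d h ⟨r, hr⟩
      apply h ((r - s) / 2)
      field_simp
      linear_combination -hr
    have hD1 := key s d hd
    have hD2 : ¬ IsSquare (1 - 4 * a) := by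
      have := key 1 a (by intro x; have := ha x; rwa [one_mul])
      rwa [one_pow] at this
    have hne : s ^ 2 - 4 * d ≠ 0 := by
      intro h; rw [h] at hD1; exact hD1 ⟨0, by simp⟩
    have hne2 : 1 - 4 * a ≠ 0 := by
      intro h; rw [h] at hD2; exact hD2 ⟨0, by simp⟩
    have q1 : quadraticChar (ZMod p) (s ^ 2 - 4 * d) = -1 :=
      quadraticChar_neg_one_iff_not_isSquare.mpr hD1
    have q2 : quadraticChar (ZMod p) (1 - 4 * a) = -1 :=
      quadraticChar_neg_one_iff_not_isSquare.mpr hD2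
    have q3 : quadraticChar (ZMod p) ((s ^ 2 - 4 * d) * (1 - 4 * a)) = 1 := by
      rw [map_mul, q1, q2]; norm_num
    have hsq : IsSquare ((s ^ 2 - 4 * d) * (1 - 4 * a)) :=
      (quadraticChar_one_iff_isSquare (mul_ne_zero hne hne2)).mp q3
    obtain ⟨r, hr⟩ := hsq
    have hr0 : r ≠ 0 := by
      rintro rfl
      rw [mul_zero] at hr
      exact (mul_ne_zero hne hne2) hr
    refine ⟨r / (s ^ 2 - 4 * d), (1 - s * (r / (s ^ 2 - 4 * d))) / 2, div_ne_zero hr0 hne, ?_, ?_⟩
    · field_simp; ring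
    · have ht : (r / (s ^ 2 - 4 * d)) ^ 2 * (s ^ 2 - 4 * d) = 1 - 4 * a := by
        field_simp
        linear_combination -hr
      generalize r / (s ^ 2 - 4 * d) = t at ht
      have h4 : (4 : ZMod p) ≠ 0 := by
        have : (4 : ZMod p) = 2 * 2 := by norm_num
        rw [this]; exact mul_ne_zero h2' h2'
      apply mul_left_cancel₀ h4
      field_simp
      linear_combination -ht

end Pool.NR
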