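import Pool.Agent.H97.NR.Stmts

namespace Pool.NR

theorem CO1.cons_of (p : ℕ) (T : Tab) (h1 : TabUp T)
    (h2 : ∀ i j k, k ≤ i ∨ k ≤ j → T.M i j k = 0)
    (h3 : ∀ i j k, ∑ l, T.M i j l * T.P l k = ∑ l, T.P i l * T.M l j k)
    (h4 : ∀ i j k, ∑ l, T.M i j l * T.P l k = ∑ l, T.P j l * T.M i l k)
    (h5 : ∀ i j k m, ∑ l, T.M i j l * T.M l k m = ∑ l, T.M j k l * T.M i l m) :
    Cons p T := by
  refine ⟨h1, h2, ?_, ?_, ?_⟩
  · intro i j
    refine ⟨fun l => (T.M i j l : ℤ), ?_⟩
    intro k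
    have := h3 i j k
    have h : (∑ l, (T.M i j l : ℤ) * (T.P l k : ℤ)) = ∑ l, (T.P i l : ℤ) * (T.M l j k : ℤ) := by
      exact_mod_cast this
    simp only [h]
  · intro i j
    refine ⟨fun l => (T.M i j l : ℤ), ?_⟩
    intro k
    have := h4 i j k
    have h : (∑ l, (T.M i j l : ℤ) * (T.P l k : ℤ)) = ∑ l, (T.P j l : ℤ) * (T.M i l k : ℤ) := by
      exact_mod_cast this
    simp only [h]
  · intro i j k
    refine ⟨0, ?_⟩
    intro m
    have := h5 i j k m
    have h : (∑ l, (T.M i j l : ℤ) * (T.M l k m : ℤ)) = ∑ l, (T.M j k l : ℤ) * (T.M i l m : ℤ) := by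
      exact_mod_cast this
    simp [h]

theorem co1 : CO1Stmt := by
  intro p hp π B
  have hP : ∀ i j, j ≠ 3 → (tab31 π B).P i j = 0 := by
    intro i j h
    fin_cases i <;> fin_cases j <;> first | exact absurd rfl h | rfl
  have hP3 : ∀ j, (tab31 π B).P 3 j = 0 := fun j => rfl
  have hM : ∀ i j k, k ≠ 3 → (tab31 π B).M i j k = 0 := by
    intro i j k h
    fin_cases i <;> fin_cases j <;> fin_cases k <;> first | exact absurd rfl h | rfl
  have hM3 : ∀ j k, (tab31 π B).M 3 j k = 0 := fun j k => rfl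
  have hM3' : ∀ j k, (tab31 π B).M j 3 k = 0 := by
    intro j k
    fin_cases j <;> rfl
  apply CO1.cons_of
  · intro i j h
    by_cases hj : j = 3
    · subst hj
      have : i = 3 := by omega
      subst this
      exact hP3 3
    · exact hP i j hj
  · intro i j k h
    by_cases hk : k = 3
    · subst hk
      rcases h with h | h
      · have : i = 3 := by omega
        subst this
        exact hM3 j 3
      · have : j = 3 := by omega
        subst this
        exact hM3' i 3
    · exact hM i j k hk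
  · intro i j k
    simp [Fin.sum_univ_four, hP, hP3, hM, hM3]
  · intro i j k
    simp [Fin.sum_univ_four, hP, hP3, hM, hM3']
  · intro i j k m
    simp [Fin.sum_univ_four, hM, hM3, hM3']

end Pool.NR
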