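import Pool.Agent.H97.NR.Stmts
import Pool.Agent.H34.NR.CO1

namespace Pool.NR

theorem co2 : CO2Stmt := by
  intro p hp π B
  have hP : ∀ i j, j = 0 ∨ j = 1 → (tab22 π B).P i j = 0 := by
    intro i j h
    rcases h with rfl | rfl <;> fin_cases i <;> rfl
  have hP3 : ∀ i j, i = 2 ∨ i = 3 → (tab22 π B).P i j = 0 := by
    rintro i j (rfl | rfl) <;> rfl
  have hM : ∀ i j k, k = 0 ∨ k = 1 → (tab22 π B).M i j k = 0 := by
    intro i j k h
    rcases h with rfl | rfl <;> fin_cases i <;> fin_cases j <;> rfl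
  have hM3 : ∀ i j k, i = 2 ∨ i = 3 → (tab22 π B).M i j k = 0 := by
    rintro i j k (rfl | rfl) <;> rfl
  have hM3' : ∀ i j k, j = 2 ∨ j = 3 → (tab22 π B).M i j k = 0 := by
    rintro i j k (rfl | rfl) <;> fin_cases i <;> rfl
  apply CO1.cons_of
  · intro i j h
    by_cases hj : j = 0 ∨ j = 1
    · exact hP i j hj
    · exact hP3 i j (by omega)
  · intro i j k h
    by_cases hk : k = 0 ∨ k = 1
    · exact hM i j k hk
    · rcases h with h | h
      · exact hM3 i j k (by omega)
      · exact hM3' i j k (by omega)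
  · intro i j k
    simp [Fin.sum_univ_four, hP, hP3, hM, hM3]
  · intro i j k
    simp [Fin.sum_univ_four, hP, hP3, hM, hM3']
  · intro i j k m
    simp [Fin.sum_univ_four, hM, hM3, hM3']

end Pool.NR
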