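import Pool.Agent.H97.NR.Stmts
import Pool.Agent.H34.NR.CO1

namespace Pool.NR

set_option maxHeartbeats 4000000 in
theorem CO3.a (p : ℕ) [Fact p.Prime] (L : ZMod (p ^ 2)) (b c d : ZMod p) :
    Cons p (tab4a L b c d) := by
  apply CO1.cons_of
  · intro i j h
    fin_cases i <;> fin_cases j <;> first | exact absurd h (by decide) | rfl
  · intro i j k h
    fin_cases i <;> fin_cases j <;> fin_cases k <;> first | exact absurd h (by decide) | rfl
  · intro i j k
    rw [Fin.sum_univ_four, Fin.sum_univ_four]
    fin_cases i <;> fin_cases j <;> fin_cases k <;> simp [tab4a]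
  · intro i j k
    rw [Fin.sum_univ_four, Fin.sum_univ_four]
    fin_cases i <;> fin_cases j <;> fin_cases k <;> simp [tab4a]
  · intro i j k m
    rw [Fin.sum_univ_four, Fin.sum_univ_four]
    fin_cases i <;> fin_cases j <;> fin_cases k <;> simp [tab4a]

set_option maxHeartbeats 4000000 in
theorem CO3.b (p : ℕ) [Fact p.Prime] (b c d e : ZMod p) :
    Cons p (tab4b b c d e) := by
  apply CO1.cons_of
  · intro i j h
    fin_cases i <;> fin_cases j <;> first | exact absurd h (by decide) | rfl
  · intro i j k h
    fin_cases i <;> fin_cases j <;> fin_cases k <;> first | exact absurd h (by decide) | rfl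
  · intro i j k
    rw [Fin.sum_univ_four, Fin.sum_univ_four]
    fin_cases i <;> fin_cases j <;> fin_cases k <;> simp [tab4b]
  · intro i j k
    rw [Fin.sum_univ_four, Fin.sum_univ_four]
    fin_cases i <;> fin_cases j <;> fin_cases k <;> simp [tab4b]
  · intro i j k m
    rw [Fin.sum_univ_four, Fin.sum_univ_four]
    fin_cases i <;> fin_cases j <;> fin_cases k <;> simp [tab4b]

theorem co3 : CO3Stmt := by
  intro p hp
  exact ⟨CO3.a p, CO3.b p⟩

end Pool.NR
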