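import Pool.Agent.H97.NR.Stmts
import Pool.Agent.H34.NR.CO1

namespace Pool.NR

set_option maxHeartbeats 4000000 in
theorem CO4.i (p : ℕ) [Fact p.Prime] (α β γ : ZMod p) :
    Cons p (tab5i α β γ) := by
  apply CO1.cons_of
  · intro i j h
    fin_cases i <;> fin_cases j <;> first | exact absurd h (by decide) | rfl
  · intro i j k h
    fin_cases i <;> fin_cases j <;> fin_cases k <;> first | exact absurd h (by decide) | rfl
  · intro i j k
    rw [Fin.sum_univ_four, Fin.sum_univ_four]
    fin_cases i <;> fin_cases j <;> fin_cases k <;> simp [tab5i]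
  · intro i j k
    rw [Fin.sum_univ_four, Fin.sum_univ_four]
    fin_cases i <;> fin_cases j <;> fin_cases k <;> simp [tab5i]
  · intro i j k m
    rw [Fin.sum_univ_four, Fin.sum_univ_four]
    fin_cases i <;> fin_cases j <;> fin_cases k <;> simp [tab5i]

set_option maxHeartbeats 4000000 in
theorem CO4.a (p : ℕ) [Fact p.Prime] (l m n : ZMod p) :
    Cons p (tab5a l m n) := by
  apply CO1.cons_of
  · intro i j h
    fin_cases i <;> fin_cases j <;> first | exact absurd h (by decide) | rfl
  · intro i j k h
    fin_cases i <;> fin_cases j <;> fin_cases k <;> first | exact absurd h (by decide) | rfl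
  · intro i j k
    rw [Fin.sum_univ_four, Fin.sum_univ_four]
    fin_cases i <;> fin_cases j <;> fin_cases k <;> simp [tab5a]
  · intro i j k
    rw [Fin.sum_univ_four, Fin.sum_univ_four]
    fin_cases i <;> fin_cases j <;> fin_cases k <;> simp [tab5a]
  · intro i j k m
    rw [Fin.sum_univ_four, Fin.sum_univ_four]
    fin_cases i <;> fin_cases j <;> fin_cases k <;> simp [tab5a]

set_option maxHeartbeats 4000000 in
theorem CO4.b (p : ℕ) [Fact p.Prime] (c d : ZMod p) :
    Cons p (tab5b c d) := by
  apply CO1.cons_of
  · intro i j h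
    fin_cases i <;> fin_cases j <;> first | exact absurd h (by decide) | rfl
  · intro i j k h
    fin_cases i <;> fin_cases j <;> fin_cases k <;> first | exact absurd h (by decide) | rfl
  · intro i j k
    rw [Fin.sum_univ_four, Fin.sum_univ_four]
    fin_cases i <;> fin_cases j <;> fin_cases k <;> simp [tab5b]
  · intro i j k
    rw [Fin.sum_univ_four, Fin.sum_univ_four]
    fin_cases i <;> fin_cases j <;> fin_cases k <;> simp [tab5b]
  · intro i j k m
    rw [Fin.sum_univ_four, Fin.sum_univ_four]
    fin_cases i <;> fin_cases j <;> fin_cases k <;> simp [tab5b]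

theorem co4 : CO4Stmt := by
  intro p hp
  exact ⟨CO4.i p, CO4.a p, CO4.b p⟩

end Pool.NR
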