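import Pool.Agent.H97.NR.Stmts

namespace Pool.NR

theorem cre : CREStmt := by
  intro p hp h3
  have h3' : (3 : ZMod p) ≠ 0 := by
    intro h
    have : ((3 : ℕ) : ZMod p) = 0 := by exact_mod_cast h
    rw [ZMod.natCast_eq_zero_iff] at this
    exact h3 ((Nat.prime_dvd_prime_iff_eq hp.out Nat.prime_three).mp this)
  have hne : ∃ q : ZMod p × ZMod p, ∀ t : ZMod p, t ^ 3 + 3 * q.1 * t - q.2 ≠ 0 := by
    by_contra hcon
    push Not at hcon
    have hs : Function.Surjective (fun x : ZMod p => x ^ 3 - x) := by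
      intro d
      obtain ⟨x, hx⟩ := hcon (-3⁻¹, d)
      refine ⟨x, ?_⟩
      have e : 3 * (-3⁻¹ : ZMod p) = -1 := by field_simp
      simp only at hx ⊢
      rw [e] at hx
      linear_combination hx
    have hi := Finite.injective_iff_surjective.mpr hs
    have h01 : (0 : ZMod p) = 1 := hi (by simp)
    exact zero_ne_one h01
  classical
  obtain ⟨q0, hq0⟩ := hne
  obtain ⟨⟨a, d⟩, ha, hmin⟩ := (Finset.univ.filter
    (fun q : ZMod p × ZMod p => ∀ t : ZMod p, t ^ 3 + 3 * q.1 * t - q.2 ≠ 0)).exists_min_image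
    (fun q => q.1.val * p + q.2.val)
    ⟨q0, by simp only [Finset.mem_filter, Finset.mem_univ, true_and]; exact hq0⟩
  simp only [Finset.mem_filter, Finset.mem_univ, true_and] at ha hmin
  have hrep : CRep p a d := by
    refine ⟨ha, ?_⟩
    intro a' d' h'
    have hm := hmin (a', d') h'
    simp only at hm
    have hd := ZMod.val_lt d
    have hd' := ZMod.val_lt d'
    rcases lt_trichotomy a.val a'.val with h | h | h
    · exact Or.inl h
    · right
      refine ⟨ZMod.val_injective p h, ?_⟩
      rw [h] at hm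
      omega
    · exfalso
      have : (a'.val + 1) * p ≤ a.val * p := Nat.mul_le_mul_right p h
      rw [add_mul, one_mul] at this
      omega
  refine ⟨a, d, hrep, ?_⟩
  rintro a' d' ⟨h1, h2⟩
  have e1 := hrep.2 a' d' h1
  have e2 := h2 a d ha
  rcases e1 with e1 | ⟨e1, e1'⟩
  · rcases e2 with e2 | ⟨e2, e2'⟩
    · omega
    · rw [e2] at e1; omega
  · refine ⟨e1.symm, ?_⟩
    rcases e2 with e2 | ⟨e2, e2'⟩
    · rw [e1] at e2; omega
    · exact ZMod.val_injective p (le_antisymm e2' e1')

end Pool.NR
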