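import Pool.Agent.H97.NR.Stmts

namespace Pool.NR

namespace LK1

variable {p : ℕ} [Fact p.Prime]

/-- An invertible matrix kills no vector (transposed action). -/
theorem inj3 (g : Matrix (Fin 3) (Fin 3) (ZMod p)) (hg : g.det ≠ 0) (v : Fin 3 → ZMod p)
    (h : ∀ i, ∑ j, g j i * v j = 0) : v = 0 := by
  have hv : g.transpose.mulVec v = 0 := by
    funext i
    simp only [Matrix.mulVec, dotProduct, Matrix.transpose_apply, Pi.zero_apply]
    exact h i
  exact Matrix.eq_zero_of_mulVec_eq_zero (by rwa [Matrix.det_transpose]) hv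

theorem part1 (B B' : Fin 3 → Fin 3 → ZMod p) : Eqv31 0 B 0 B' ↔ Eq2a B B' := by
  constructor
  · rintro ⟨g, r, h1, h2, -, h4⟩
    exact ⟨g, r, h1, h2, h4⟩
  · rintro ⟨g, r, h1, h2, h4⟩
    exact ⟨g, r, h1, h2, by intro i; simp, h4⟩

theorem part2 (B B' : Fin 3 → Fin 3 → ZMod p) : Eqv31 pi31 B pi31 B' ↔ Eq2b B B' := by
  constructor
  · rintro ⟨g, r, h1, h2, h3, h4⟩
    have e0 := h3 0
    have e1 := h3 1
    have e2 := h3 2
    simp [pi31, Fin.sum_univ_three] at e0 e1 e2
    rw [Matrix.det_fin_three] at h1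
    have hdet : g 1 1 * g 2 2 - g 1 2 * g 2 1 ≠ 0 := by
      intro h
      apply h1
      rw [← e1, ← e2]
      linear_combination g 0 0 * h
    refine ⟨r, g 1 0, g 2 0, g 1 1, g 1 2, g 2 1, g 2 2, h2, hdet, ?_⟩
    intro i j
    rw [h4 i j]
    have hg : ∀ k i, g k i = (![![r, 0, 0], ![g 1 0, g 1 1, g 1 2], ![g 2 0, g 2 1, g 2 2]] :
        Fin 3 → Fin 3 → ZMod p) k i := by
      intro k i
      fin_cases k <;> fin_cases i <;> simp [← e0, ← e1, ← e2]
    refine Finset.sum_congr rfl fun k _ => Finset.sum_congr rfl fun l _ => ?_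
    rw [← hg k i, ← hg l j]
  · rintro ⟨u, h1, h2, g11, g12, g21, g22, hu, hdet, h⟩
    refine ⟨Matrix.of ![![u, 0, 0], ![h1, g11, g12], ![h2, g21, g22]], u, ?_, hu, ?_, ?_⟩
    · rw [Matrix.det_fin_three]
      intro h0
      apply mul_ne_zero hu hdet
      simp at h0
      linear_combination h0
    · intro i
      fin_cases i <;> simp [pi31, Fin.sum_univ_three]
    · intro i j
      exact h i j

theorem part3 (π : Fin 3 → ZMod p) (B : Fin 3 → Fin 3 → ZMod p) (hπ : π ≠ 0) :
    ∃ B', Eqv31 π B pi31 B' := by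
  have key : ∃ g : Matrix (Fin 3) (Fin 3) (ZMod p), g.det ≠ 0 ∧
      ∀ i, pi31 i = ∑ j, g j i * π j := by
    by_cases h0 : π 0 = 0
    · by_cases h1 : π 1 = 0
      · have h2 : π 2 ≠ 0 := by
          intro h2
          apply hπ
          funext i
          fin_cases i
          · exact h0
          · exact h1
          · exact h2
        refine ⟨Matrix.of ![![0, 1, 0], ![0, 0, 1], ![(π 2)⁻¹, 0, 0]], ?_, ?_⟩
        · rw [Matrix.det_fin_three]
          simp [h2]
        · intro i
          fin_cases i <;> simp [pi31, Fin.sum_univ_three, h0, h1, h2]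
      · refine ⟨Matrix.of ![![0, 1, 0], ![(π 1)⁻¹, 0, - π 2 / π 1], ![0, 0, 1]], ?_, ?_⟩
        · rw [Matrix.det_fin_three]
          simp [h1]
        · intro i
          fin_cases i <;> simp [pi31, Fin.sum_univ_three, h0, h1]
    · refine ⟨Matrix.of ![![(π 0)⁻¹, - π 1 / π 0, - π 2 / π 0], ![0, 1, 0], ![0, 0, 1]], ?_, ?_⟩
      · rw [Matrix.det_fin_three]
        simp [h0]
      · intro i
        fin_cases i <;> simp [pi31, Fin.sum_univ_three, h0]
  obtain ⟨g, hg, hg'⟩ := key
  exact ⟨fun i j => ∑ k, ∑ l, g k i * g l j * B k l, g, 1, hg, one_ne_zero,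
    fun i => by rw [one_mul]; exact hg' i, fun i j => by rw [one_mul]⟩

theorem part4 (π π' : Fin 3 → ZMod p) (B B' : Fin 3 → Fin 3 → ZMod p)
    (h : Eqv31 π B π' B') : (π = 0 ↔ π' = 0) ∧ (B = 0 ↔ B' = 0) := by
  obtain ⟨g, r, h1, h2, h3, h4⟩ := h
  refine ⟨⟨?_, ?_⟩, ⟨?_, ?_⟩⟩
  · rintro rfl
    funext i
    have := h3 i
    simp at this
    exact this.resolve_left h2
  · rintro rfl
    apply inj3 g h1
    intro i
    rw [← h3 i]; simp
  · rintro rfl
    funext i j
    have := h4 i j
    simp at this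
    exact this.resolve_left h2
  · rintro rfl
    have e : ∀ i, (fun l => ∑ k, g k i * B k l) = 0 := by
      intro i
      apply inj3 g h1
      intro j
      have := h4 i j
      simp only [Pi.zero_apply, mul_zero] at this
      rw [this, Finset.sum_comm]
      refine Finset.sum_congr rfl fun l _ => ?_
      rw [Finset.mul_sum]
      refine Finset.sum_congr rfl fun k _ => ?_
      ring
    funext k l
    have : (fun k => B k l) = 0 := by
      apply inj3 g h1
      intro i
      exact congrFun (e i) l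
    exact congrFun this k

end LK1

theorem lk1 : LK1Stmt := by
  intro p hp
  exact ⟨LK1.part1, LK1.part2, LK1.part3, LK1.part4⟩

end Pool.NR
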