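import Pool.Agent.H97.NR.Stmts

namespace Pool.NR

namespace LK2

variable {p : ℕ} [Fact p.Prime]

theorem part1 (B B' : Fin 2 → Fin 2 → Fin 2 → ZMod p) : Eqv22 0 B 0 B' ↔ Eq3a B B' := by
  constructor
  · rintro ⟨g, h, h1, h2, -, h4⟩
    exact ⟨g, h, h1, h2, h4⟩
  · rintro ⟨g, h, h1, h2, h4⟩
    exact ⟨g, h, h1, h2, by intro i l; simp, h4⟩

theorem part3 (B B' : Fin 2 → Fin 2 → Fin 2 → ZMod p) : Eqv22 pi3c B pi3c B' ↔ Eq3c B B' := by
  constructor
  · rintro ⟨g, h, h1, h2, h3, h4⟩
    have e : h = g := by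
      ext l i
      have := h3 i l
      fin_cases i <;> fin_cases l <;> simpa [pi3c, Fin.sum_univ_two] using this
    subst e
    exact ⟨h, h1, h4⟩
  · rintro ⟨g, h1, h4⟩
    refine ⟨g, g, h1, h1, ?_, h4⟩
    intro i l
    fin_cases i <;> fin_cases l <;> simp [pi3c, Fin.sum_univ_two]

theorem part2 (B B' : Fin 2 → Fin 2 → Fin 2 → ZMod p) : Eqv22 pi3b B pi3b B' ↔ Eq3b B B' := by
  constructor
  · rintro ⟨g, h, h1, h2, h3, h4⟩
    have e00 := h3 0 0
    have e01 := h3 0 1
    have e10 := h3 1 0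
    simp [pi3b, Fin.sum_univ_two] at e00 e01 e10
    rw [Matrix.det_fin_two] at h1 h2
    rw [← e10, zero_mul, sub_zero] at h1
    rw [e01, mul_zero, sub_zero] at h2
    have hg : ∀ k i, g k i = (![![g 0 0, 0], ![g 1 0, g 1 1]] :
        Fin 2 → Fin 2 → ZMod p) k i := by
      intro k i
      fin_cases k <;> fin_cases i <;> simp [← e10]
    refine ⟨g 0 0, g 1 0, g 1 1, h 1 1, h 0 1, left_ne_zero_of_mul h1, right_ne_zero_of_mul h1,
      right_ne_zero_of_mul h2, ?_, ?_⟩
    · intro i j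
      have := h4 i j 0
      rw [Fin.sum_univ_two, e00] at this
      rw [this]
      refine Finset.sum_congr rfl fun k _ => Finset.sum_congr rfl fun l _ => ?_
      rw [← hg k i, ← hg l j]
    · intro i j
      have := h4 i j 1
      rw [Fin.sum_univ_two, e01, zero_mul, zero_add] at this
      rw [this]
      refine Finset.sum_congr rfl fun k _ => Finset.sum_congr rfl fun l _ => ?_
      rw [← hg k i, ← hg l j]
  · rintro ⟨u, k, v, r, e, hu, hv, hr, h1, h2⟩
    refine ⟨Matrix.of ![![u, 0], ![k, v]], Matrix.of ![![u, e], ![0, r]], ?_, ?_, ?_, ?_⟩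
    · rw [Matrix.det_fin_two]
      simp [hu, hv]
    · rw [Matrix.det_fin_two]
      simp [hu, hr]
    · intro i l
      fin_cases i <;> fin_cases l <;> simp [pi3b, Fin.sum_univ_two]
    · intro i j l
      fin_cases l
      · rw [Fin.sum_univ_two]
        exact h1 i j
      · rw [Fin.sum_univ_two]
        have := h2 i j
        simp only [Matrix.of_apply, Matrix.cons_val', Matrix.cons_val_zero, Matrix.cons_val_one,
          Fin.mk_one, zero_mul, zero_add] at this ⊢
        exact this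

end LK2

theorem lk2 : LK2Stmt := by
  intro p hp
  exact ⟨LK2.part1, LK2.part2, LK2.part3⟩

end Pool.NR
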