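import Pool.Agent.H97.NR.Stmts

namespace Pool.NR

namespace LK3

variable {p : ℕ} [Fact p.Prime]

theorem inj2 (g : Matrix (Fin 2) (Fin 2) (ZMod p)) (hg : g.det ≠ 0) (v : Fin 2 → ZMod p)
    (h : ∀ i, ∑ j, g j i * v j = 0) : v = 0 := by
  have hv : g.transpose.mulVec v = 0 := by
    funext i
    simp only [Matrix.mulVec, dotProduct, Matrix.transpose_apply, Pi.zero_apply]
    exact h i
  exact Matrix.eq_zero_of_mulVec_eq_zero (by rwa [Matrix.det_transpose]) hv

theorem solve (h : Matrix (Fin 2) (Fin 2) (ZMod p)) (hh : h.det ≠ 0)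
    (F : Fin 2 → Fin 2 → Fin 2 → ZMod p) :
    ∃ B' : Fin 2 → Fin 2 → Fin 2 → ZMod p, ∀ i j l, ∑ k, h l k * B' k i j = F l i j := by
  refine ⟨fun k i j => h⁻¹.mulVec (fun l => F l i j) k, ?_⟩
  intro i j l
  have e : h.mulVec (h⁻¹.mulVec (fun l => F l i j)) = fun l => F l i j := by
    rw [Matrix.mulVec_mulVec, Matrix.mul_nonsing_inv h (isUnit_iff_ne_zero.mpr hh),
      Matrix.one_mulVec]
  exact congrFun e l

theorem part2 (π π' : Fin 2 → Fin 2 → ZMod p) (B B' : Fin 2 → Fin 2 → Fin 2 → ZMod p)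
    (hE : Eqv22 π B π' B') (hS : Surj22 π B) : Surj22 π' B' := by
  obtain ⟨g, h, h1, h2, h3, h4⟩ := hE
  intro c hc1 hc2
  have e : Matrix.vecMul (Matrix.vecMul c h⁻¹) h = c := by
    rw [Matrix.vecMul_vecMul, Matrix.nonsing_inv_mul h (isUnit_iff_ne_zero.mpr h2),
      Matrix.vecMul_one]
  generalize Matrix.vecMul c h⁻¹ = d at e
  have e' : ∀ k, ∑ l, d l * h l k = c k := fun k => congrFun e k
  have hd : d = 0 := by
    apply hS
    · have : (fun j => ∑ l, d l * π j l) = 0 := by
        apply inj2 g h1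
        intro i
        have := hc1 i
        simp only [Fin.sum_univ_two] at this e' h3 ⊢
        rw [← e' 0, ← e' 1] at this
        linear_combination this - d 0 * h3 i 0 - d 1 * h3 i 1
      exact fun i => congrFun this i
    · have key : ∀ i, (fun b => ∑ a, g a i * ∑ l, d l * B l a b) = 0 := by
        intro i
        apply inj2 g h1
        intro j
        have := hc2 i j
        simp only [Fin.sum_univ_two] at this e' h4 ⊢
        rw [← e' 0, ← e' 1] at this
        linear_combination this - d 0 * h4 i j 0 - d 1 * h4 i j 1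
      intro a b
      have : (fun a => ∑ l, d l * B l a b) = 0 := by
        apply inj2 g h1
        intro i
        exact congrFun (key i) b
      exact congrFun this a
  rw [← e, hd]
  simp

theorem col (v : Fin 2 → ZMod p) (hv : v ≠ 0) :
    ∃ h : Matrix (Fin 2) (Fin 2) (ZMod p), h.det ≠ 0 ∧ ∀ l, h l 0 = v l := by
  by_cases h0 : v 0 = 0
  · have h1 : v 1 ≠ 0 := by
      intro h1
      apply hv
      funext i
      fin_cases i
      · exact h0
      · exact h1
    refine ⟨Matrix.of ![![v 0, 1], ![v 1, 0]], ?_, ?_⟩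
    · rw [Matrix.det_fin_two]
      simp [h1]
    · intro l
      fin_cases l <;> simp
  · refine ⟨Matrix.of ![![v 0, 0], ![v 1, 1]], ?_, ?_⟩
    · rw [Matrix.det_fin_two]
      simp [h0]
    · intro l
      fin_cases l <;> simp

theorem rankone (π : Fin 2 → Fin 2 → ZMod p) (hπ : π ≠ 0)
    (hdet : π 0 0 * π 1 1 - π 0 1 * π 1 0 = 0) :
    ∃ g h : Matrix (Fin 2) (Fin 2) (ZMod p), g.det ≠ 0 ∧ h.det ≠ 0 ∧
      ∀ i l, ∑ k, h l k * pi3b i k = ∑ j, g j i * π j l := by
  by_cases hr : π 0 = 0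
  · have hr1 : π 1 ≠ 0 := by
      intro h1
      apply hπ
      funext i
      fin_cases i
      · exact hr
      · exact h1
    obtain ⟨h, hh, hh'⟩ := col (π 1) hr1
    refine ⟨Matrix.of ![![0, 1], ![1, 0]], h, ?_, hh, ?_⟩
    · rw [Matrix.det_fin_two]
      simp
    · intro i l
      fin_cases i
      · simp [pi3b, Fin.sum_univ_two, hh' l, hr]
      · simp [pi3b, Fin.sum_univ_two, hr]
  · obtain ⟨h, hh, hh'⟩ := col (π 0) hr
    have hc : ∃ c : ZMod p, ∀ l, π 1 l = c * π 0 l := by
      by_cases h0 : π 0 0 = 0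
      · have h1 : π 0 1 ≠ 0 := by
          intro h1
          apply hr
          funext i
          fin_cases i
          · exact h0
          · exact h1
        refine ⟨π 1 1 / π 0 1, ?_⟩
        intro l
        fin_cases l
        · have : π 1 0 = 0 := by
            rw [h0, zero_mul, zero_sub, neg_eq_zero] at hdet
            exact (mul_eq_zero.mp hdet).resolve_left h1
          simp [this, h0]
        · simp only [Fin.mk_one]
          field_simp
      · refine ⟨π 1 0 / π 0 0, ?_⟩
        intro l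
        fin_cases l
        · simp only [Fin.zero_eta]
          field_simp
        · simp only [Fin.mk_one]
          field_simp
          linear_combination hdet
    obtain ⟨c, hc⟩ := hc
    refine ⟨Matrix.of ![![1, -c], ![0, 1]], h, ?_, hh, ?_⟩
    · rw [Matrix.det_fin_two]
      simp
    · intro i l
      fin_cases i
      · simp [pi3b, Fin.sum_univ_two, hh' l]
      · simp [pi3b, Fin.sum_univ_two, hc]

theorem part1 (π : Fin 2 → Fin 2 → ZMod p) (B : Fin 2 → Fin 2 → Fin 2 → ZMod p) (hπ : π ≠ 0)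
    (hS : Surj22 π B) :
    (∃ B' : Fin 2 → Fin 2 → Fin 2 → ZMod p, B' 1 ≠ 0 ∧ Eqv22 π B pi3b B') ∨
      ∃ B' : Fin 2 → Fin 2 → Fin 2 → ZMod p, Eqv22 π B pi3c B' := by
  by_cases hdet : π 0 0 * π 1 1 - π 0 1 * π 1 0 = 0
  · left
    obtain ⟨g, h, hg, hh, h3⟩ := rankone π hπ hdet
    obtain ⟨B', hB'⟩ := solve h hh (fun l i j => ∑ a, ∑ b, g a i * g b j * B l a b)
    have hE : Eqv22 π B pi3b B' := ⟨g, h, hg, hh, h3, hB'⟩
    refine ⟨B', ?_, hE⟩
    intro h0
    have hS' := part2 _ _ _ _ hE hS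
    have := hS' ![0, 1] (by intro i; fin_cases i <;> simp [pi3b, Fin.sum_univ_two])
      (by intro i j; simp [Fin.sum_univ_two, h0])
    have := congrFun this 1
    simp at this
  · right
    obtain ⟨B', hB'⟩ := solve (Matrix.of (fun l i => π i l)) (by
      rw [Matrix.det_fin_two]
      simp only [Matrix.of_apply]
      intro h0
      apply hdet
      linear_combination h0)
      (fun l i j => ∑ a, ∑ b, (1 : Matrix (Fin 2) (Fin 2) (ZMod p)) a i *
        (1 : Matrix (Fin 2) (Fin 2) (ZMod p)) b j * B l a b)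
    refine ⟨B', 1, Matrix.of (fun l i => π i l), by simp, ?_, ?_, hB'⟩
    · rw [Matrix.det_fin_two]
      simp only [Matrix.of_apply]
      intro h0
      apply hdet
      linear_combination h0
    · intro i l
      fin_cases i <;> simp [pi3c, Fin.sum_univ_two, Matrix.one_apply]

theorem part3 (π π' : Fin 2 → Fin 2 → ZMod p) (B B' : Fin 2 → Fin 2 → Fin 2 → ZMod p)
    (hE : Eqv22 π B π' B') (h1 : π = 0 ∨ π = pi3b ∨ π = pi3c)
    (h2 : π' = 0 ∨ π' = pi3b ∨ π' = pi3c) : π = π' := by
  obtain ⟨g, h, hg, hh, h3, -⟩ := hE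
  rw [Matrix.det_fin_two] at hg hh
  have e00 := h3 0 0
  have e01 := h3 0 1
  have e10 := h3 1 0
  have e11 := h3 1 1
  rcases h1 with rfl | rfl | rfl <;> rcases h2 with rfl | rfl | rfl
  · rfl
  · exfalso
    simp [pi3b, Fin.sum_univ_two] at e00 e01 e10 e11
    apply hh; rw [e00, e01]; ring
  · exfalso
    simp [pi3c, Fin.sum_univ_two] at e00 e01 e10 e11
    apply hh; rw [e00, e01]; ring
  · exfalso
    simp [pi3b, Fin.sum_univ_two] at e00 e01 e10 e11
    apply hg; rw [← e00, ← e10]; ring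
  · rfl
  · exfalso
    simp [pi3b, pi3c, Fin.sum_univ_two] at e00 e01 e10 e11
    apply hh; rw [e01, e11]; ring
  · exfalso
    simp [pi3c, Fin.sum_univ_two] at e00 e01 e10 e11
    apply hg; rw [← e00, ← e10]; ring
  · exfalso
    simp [pi3b, pi3c, Fin.sum_univ_two] at e00 e01 e10 e11
    apply hg; rw [← e10, ← e11]; ring
  · rfl

end LK3

theorem lk3 : LK3Stmt := by
  intro p hp
  exact ⟨LK3.part1, LK3.part2, LK3.part3⟩

end Pool.NR
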